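import Mathlib
import Pool.Agent.Q231.Perm.FKG

/-!
# The middle-gap measure on permutations is positively associated

A permutation `a` of `{1, …, n}` is an element of `Perm (Fin n)`: position `k + 1` carries the
entry `a k + 1`.
-/

open Finset Equiv

namespace Pool.Agent.Results.MP_8cb698_co.MiddleGap

/-- Strong up-sets: stable under exchanging the two entries `i < j` of an inversion (`j` occurs
before `i`). -/
def StrongUpSet {n : ℕ} (A : Finset (Perm (Fin n))) : Prop :=
  ∀ a ∈ A, ∀ i j : Fin n, i < j → a⁻¹ j < a⁻¹ i → swap i j * a ∈ A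

/-- The number of positions `k ≤ n / 2` whose entry is larger than `n / 2` (the position of
index `k : Fin n` is `k + 1`, its entry is `a k + 1`). -/
def midGap {n : ℕ} (a : Perm (Fin n)) : ℕ :=
  (univ.filter fun k : Fin n => 2 * (k.val + 1) ≤ n ∧ n < 2 * ((a k).val + 1)).card

/-- The probability of the set `A` for the measure proportional to `q ^ midGap`. -/
noncomputable def mu {n : ℕ} (q : ℝ) (A : Finset (Perm (Fin n))) : ℝ :=
  (∑ a ∈ A, q ^ midGap a) / ∑ a : Perm (Fin n), q ^ midGap a

lemma weight_eq {l r : ℕ} (hlr : l = (l + r) / 2) (q : ℝ) (a : Perm (Fin (l + r))) :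
    q ^ midGap a = ∏ k : Fin l,
      (fun x : Fin (l + r) => if l + r < 2 * (x.val + 1) then q else 1) (a (Fin.castAdd r k)) := by
  have h1 : q ^ midGap a = ∏ k : Fin (l + r),
      if 2 * (k.val + 1) ≤ l + r ∧ l + r < 2 * ((a k).val + 1) then q else 1 := by
    unfold midGap
    rw [Finset.prod_ite, prod_const, prod_const, one_pow, mul_one]
  rw [h1, Fin.prod_univ_add]
  have h2 : ∏ i : Fin r, (if 2 * ((Fin.natAdd l i).val + 1) ≤ l + r ∧
      l + r < 2 * ((a (Fin.natAdd l i)).val + 1) then q else 1) = 1 := by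
    apply prod_eq_one
    intro i _
    rw [if_neg]
    rintro ⟨h, _⟩
    simp only [Fin.val_natAdd] at h
    omega
  rw [h2, mul_one]
  refine prod_congr rfl fun k _ => ?_
  have h3 : 2 * ((Fin.castAdd r k).val + 1) ≤ l + r := by
    simp only [Fin.val_castAdd]
    have := k.2
    omega
  simp only [h3, true_and]

lemma main {l r : ℕ} (hlr : l = (l + r) / 2) (q : ℝ) (hq : 0 < q)
    (A B : Finset (Perm (Fin (l + r)))) (hA : StrongUpSet A) (hB : StrongUpSet B) :
    mu q A * mu q B ≤ mu q (A ∩ B) := by
  classical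
  let F : Perm (Fin (l + r)) → ℝ := fun a => if a ∈ A then 1 else 0
  let G : Perm (Fin (l + r)) → ℝ := fun a => if a ∈ B then 1 else 0
  have hmono : ∀ S : Finset (Perm (Fin (l + r))), StrongUpSet S →
      Q231.Perm.UpMono (fun a => if a ∈ S then (1 : ℝ) else 0) := by
    intro S hS a i j hij hinv
    by_cases h : a ∈ S
    · simp only [h, if_true, hS a h i j hij hinv, le_refl]
    · simp only [h, if_false]
      split_ifs <;> norm_num
  have h0 : ∀ S : Finset (Perm (Fin (l + r))), ∀ a : Perm (Fin (l + r)),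
      (0 : ℝ) ≤ if a ∈ S then 1 else 0 := by
    intro S a
    split_ifs <;> norm_num
  have key := Q231.Perm.pa_glue (l := l) (r := r) (Q231.Perm.pa_uniform l)
    (Q231.Perm.pa_uniform r) (fun x => if l + r < 2 * (x.val + 1) then q else 1)
    (fun x => by split_ifs <;> positivity) F G (hmono A hA) (hmono B hB) (h0 A) (h0 B)
  simp only [← weight_eq hlr] at key
  have hs : ∀ S : Finset (Perm (Fin (l + r))),
      ∑ a : Perm (Fin (l + r)), q ^ midGap a * (if a ∈ S then (1 : ℝ) else 0) =
        ∑ a ∈ S, q ^ midGap a := by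
    intro S
    simp [Finset.sum_ite_mem]
  have hFG : ∀ a, F a * G a = if a ∈ A ∩ B then (1 : ℝ) else 0 := by
    intro a
    simp only [F, G, mem_inter]
    by_cases h1 : a ∈ A <;> by_cases h2 : a ∈ B <;> simp [h1, h2]
  simp only [hFG] at key
  simp only [F, G] at key
  rw [hs, hs, hs] at key
  have hZ : 0 < ∑ a : Perm (Fin (l + r)), q ^ midGap a :=
    sum_pos (fun a _ => by positivity) ⟨1, mem_univ _⟩
  unfold mu
  rw [div_mul_div_comm, div_le_div_iff₀ (by positivity) hZ]
  nlinarith [key, hZ]

/-- **The middle-gap measure is positively associated for every `n` and every `q > 0`.** -/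
theorem result (n : ℕ) (q : ℝ) (hq : 0 < q) (A B : Finset (Perm (Fin n)))
    (hA : StrongUpSet A) (hB : StrongUpSet B) : mu q A * mu q B ≤ mu q (A ∩ B) := by
  obtain ⟨r, hr⟩ : ∃ r, n = n / 2 + r := ⟨n - n / 2, by omega⟩
  generalize hl : n / 2 = l at hr
  subst hr
  exact main hl.symm q hq A B hA hB

end Pool.Agent.Results.MP_8cb698_co.MiddleGap
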